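import Pool.Agent.Run7.h677.PS.Stm

set_option autoImplicit false

namespace Pool.Agent.Run7.h677.PS
open Finset

theorem t_FIN : S_PGP → S_LIM → S_FIN := by
  classical
  intro hPGP hLIM d hd
  obtain ⟨c, hc, n0, H⟩ := hPGP d hd
  refine ⟨min c (1 / ((n0 : ℝ) + 1)), lt_min hc (by positivity), ?_⟩
  intro n C hn hC
  by_cases hlt : n < n0
  · have hne : ∀ i, (C i).Nonempty := fun i => Finset.card_pos.1 (by rw [hC i]; exact hn)
    choose x hx using hne
    refine ⟨x 0, fun i => {x i}, fun i => ⟨Finset.singleton_subset_iff.2 (hx i), ?_⟩, ?_⟩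
    · have h1 : min c (1 / ((n0 : ℝ) + 1)) * (n : ℝ) ≤ (1 / ((n0 : ℝ) + 1)) * n :=
        mul_le_mul_of_nonneg_right (min_le_right _ _) (Nat.cast_nonneg n)
      have h2 : (n : ℝ) ≤ (n0 : ℝ) + 1 := by
        have : (n : ℝ) < (n0 : ℝ) := by exact_mod_cast hlt
        linarith
      have h3 : (1 / ((n0 : ℝ) + 1)) * (n : ℝ) ≤ 1 := by
        rw [one_div, inv_mul_le_iff₀ (by positivity)]
        linarith
      simp only [Finset.card_singleton, Nat.cast_one]
      linarith
    · intro y hy
      have h0 : y 0 = x 0 := Finset.mem_singleton.1 (hy 0)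
      exact subset_convexHull ℝ _ ⟨0, h0⟩
  · have hle : n0 ≤ n := not_lt.1 hlt
    let e : ∀ i, Fin n ≃ {y // y ∈ C i} := fun i => ((C i).equivFinOfCardEq (hC i)).symm
    let X : Fin (d + 1) → Fin n → E d := fun i j => (e i j : E d)
    have hXinj : ∀ i, Function.Injective (X i) := by
      intro i a b hab
      exact (e i).injective (Subtype.ext hab)
    obtain ⟨p, Z, hZ, hp⟩ := hLIM d n X (fun Z => ∀ i, c * (n : ℝ) ≤ ((Z i).card : ℝ))
      (fun ε hε => H n hle X ε hε)
    refine ⟨p, fun i => (Z i).image (X i), fun i => ⟨?_, ?_⟩, ?_⟩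
    · intro y hy
      obtain ⟨j, _, rfl⟩ := Finset.mem_image.1 hy
      exact (e i j).2
    · rw [Finset.card_image_of_injective _ (hXinj i)]
      exact le_trans (mul_le_mul_of_nonneg_right (min_le_left _ _) (Nat.cast_nonneg n)) (hZ i)
    · intro x hx
      choose f hf hfx using fun i => Finset.mem_image.1 (hx i)
      have := hp f hf
      unfold hullX at this
      have h2 : (fun i => X i (f i)) '' ((univ : Finset (Fin (d + 1))) : Set (Fin (d + 1))) =
          Set.range x := by
        rw [Finset.coe_univ, Set.image_univ]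
        congr 1
        funext i
        exact hfx i
      rwa [h2] at this

end Pool.Agent.Run7.h677.PS
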