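import Mathlib

set_option autoImplicit false

/-!
# Pach's theorem (homogeneous selection), project PS, problem MP_c3eb34_co

The goal is the full answer of Q1 of MP_c3eb34_co: for every dimension `d` there is `c > 0` such
that any `d + 1` nonempty finite sets (of arbitrary sizes) admit a homogeneous selection. The
starting tree has the reduction to equal sizes; here is a complete elementary proof for equal
sizes (a combinatorial form of Karasev's proof of the overlap theorem, weak regularity by density
increments, centerpoints).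

Every `S_X` below is a closed proposition whose complete proof is in its doc string. A piece `X`
with the hypotheses `A, B` is the theorem
`theorem t_X : S_A → S_B → S_X` (only `theorem t_X : S_X` if there is no hypothesis) in the
namespace `Pool.Agent.Run7.h677.PS`, file `Pool/Agent/Run7/<you>/PS/X.lean`.
-/

namespace Pool.Agent.Run7.h677.PS
open Finset

/-- `ℝ^d` -/
abbrev E (d : ℕ) := EuclideanSpace ℝ (Fin d)

/-- The tuples: one index in `Fin n` for every colour in `Fin (d + 1)`. -/
abbrev Tup (d n : ℕ) := Fin (d + 1) → Fin n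

/-- The convex hull of the points `X i (f i)`, `i ∈ A`. -/
def hullX {d n : ℕ} (X : Fin (d + 1) → Fin n → E d) (A : Finset (Fin (d + 1)))
    (f : Tup d n) : Set (E d) :=
  convexHull ℝ ((fun i => X i (f i)) '' (A : Set (Fin (d + 1))))

open Classical in
/-- `1` if the hull of `σ` meets the hull of the points `X i (f i)`, `i ∈ A`, and `0` otherwise
(modulo 2). -/
noncomputable def Ind {d n : ℕ} (X : Fin (d + 1) → Fin n → E d) (σ : Finset (E d))
    (A : Finset (Fin (d + 1))) (f : Tup d n) : ZMod 2 :=
  if (convexHull ℝ (σ : Set (E d)) ∩ hullX X A f).Nonempty then 1 else 0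

/-- General position of the family `X` relative to the finite sets `σ ∈ F`: the points of `σ`
together with the points `X i`, `i ∈ y`, are affinely independent if they are at most `d + 1`
(this includes that they are distinct). -/
def GP {d : ℕ} {ι : Type} (X : ι → E d) (F : Set (Finset (E d))) : Prop :=
  ∀ σ ∈ F, ∀ y : Finset ι, σ.card + y.card ≤ d + 1 →
    AffineIndependent ℝ (Sum.elim (fun v : σ => (v : E d)) (fun i : y => X i))

/-- The uncurried family of the points `X i j`. -/
def unc {d n : ℕ} (X : Fin (d + 1) → Fin n → E d) : Fin (d + 1) × Fin n → E d :=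
  fun a => X a.1 a.2

/-- The faces of the sets in `T`. -/
def Faces {V : Type} (T : Finset (Finset V)) : Set (Finset V) := {σ | ∃ s ∈ T, σ ⊆ s}

/-- The tuple which is `f'` on `B` and `f` outside `B`. -/
def mix {d n : ℕ} (f f' : Tup d n) (B : Finset (Fin (d + 1))) : Tup d n :=
  fun i => if i ∈ B then f' i else f i

/-! ## The parity lemma -/

/-- PARA (no hypotheses). Let `W` be a two-dimensional space of functions on a finite set with at
least two elements such that every nonzero element of `W` vanishes in at most one point. Then the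
number of points `v` for which some nonzero nonnegative `μ ∈ W` vanishes in `v` is even (in fact
it is 0 or 2).

Proof. Let `C` be the set of all `μ ∈ W` with `μ ≥ 0`. If `C = {0}` the set of `v` is empty.
Otherwise there is a strictly positive `μ⁰ ∈ C`: take `μ ∈ C` nonzero; if `μ v = 0` for some `v`
then `v` is the only zero; there is `ν ∈ W` with `ν v > 0` (else all of the two-dimensional `W`
vanishes in `v`; choose `w ≠ v`; the functional `ν ↦ ν w` has a nonzero kernel element in `W`,
which vanishes in `v` and `w`, a contradiction), and `μ + t ν` is strictly positive for small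
`t > 0`. Choose `μ' ∈ W` not a multiple of `μ⁰`; then `μ⁰, μ'` is a basis of `W`. Put
`r j = - μ' j / μ⁰ j`. The numbers `r j` are pairwise distinct: if `r j = r k` with `j ≠ k`, then
`r j • μ⁰ + μ'` is nonzero and vanishes in `j` and `k`. The element `a • μ⁰ + b • μ'` has the
value `μ⁰ j * (a - b * r j)` in `j`. If it is nonzero, nonnegative and vanishes in `v`, then
`b ≠ 0` (else it is `a • μ⁰` with `a ≠ 0`, which has no zero); if `b > 0` then `a / b = r v` and
`a / b ≥ r j` for all `j`, so `v` is the (unique) maximiser of `r`; if `b < 0` then `v` is the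
unique minimiser of `r`. Conversely `(max r) • μ⁰ + μ'` and `- (min r) • μ⁰ - μ'` are nonzero,
nonnegative and vanish in the maximiser and the minimiser. As there are at least two points and
`r` is injective, the maximiser and the minimiser are different: exactly two points `v`. -/
def S_PARA : Prop :=
  ∀ (α : Type) [Fintype α] [DecidableEq α] (W : Submodule ℝ (α → ℝ)),
    2 ≤ Fintype.card α → Module.finrank ℝ W = 2 →
    (∀ μ ∈ W, μ ≠ 0 → ∀ i j, i ≠ j → μ i = 0 → μ j ≠ 0) →
    Even {v : α | ∃ μ ∈ W, μ ≠ 0 ∧ (∀ i, 0 ≤ μ i) ∧ μ v = 0}.ncard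

/-- PARB (hypothesis PARA). For `d + 3` points `z v` in `ℝ^d` of which any `d + 1` are affinely
independent, and a set `S` of indices, the number of `v` for which the hulls of `S ∖ {v}` and
`Sᶜ ∖ {v}` meet is even.

Proof. Let `Λ` be the space of all `λ : α → ℝ` with `∑ λ v = 0` and `∑ λ v • z v = 0`, the kernel
of the linear map `λ ↦ (∑ λ v, ∑ λ v • z v)` to `ℝ × ℝ^d`. Every nonzero `λ ∈ Λ` has at most one
zero: if `λ i = λ j = 0`, `i ≠ j`, then `λ` is an affine dependence of the `d + 1` points
different from `i, j`, so it vanishes (for instance by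
`affineIndependent_iff`). The map is surjective (restricted to the functions supported on
`d + 1` indices it is injective, so bijective by dimensions), thus `finrank Λ = 2` by rank-nullity.
(Alternative: `finrank Λ ≥ 2` by rank-nullity, and `≤ 2` because the evaluation at two indices is
injective on `Λ`.) Let `W` be the image of `Λ` under the linear equivalence which changes the sign
of the values on `Sᶜ`. Then `W` has dimension 2 and every nonzero element has at most one zero. It
remains to see that the hulls of `S ∖ {v}` and `Sᶜ ∖ {v}` meet iff there is a nonzero `μ ∈ W`,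
`μ ≥ 0`, `μ v = 0`. If `x` is in both hulls, write `x = ∑ a i • z i = ∑ b i • z i` with
nonnegative coefficients of sum 1 supported on `S ∖ {v}` and `Sᶜ ∖ {v}`
(`Finset.mem_convexHull'`, `mem_convexHull_image` or similar) and take `μ = a + b`, whose signed
version `a - b` is in `Λ`. Conversely, given `μ`, put `s = ∑_{S} μ = ∑_{Sᶜ} μ` (because the signed
version has sum 0); `s > 0` since otherwise `μ = 0`; the point `∑_{i ∈ S} (μ i / s) • z i
= ∑_{i ∈ Sᶜ} (μ i / s) • z i` is in both hulls. Now apply PARA. -/
def S_PARB : Prop :=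
  ∀ (d : ℕ) (α : Type) [Fintype α] [DecidableEq α] (z : α → E d) (S : Finset α),
    Fintype.card α = d + 3 →
    (∀ t : Finset α, t.card ≤ d + 1 → AffineIndependent ℝ (fun i : t => z i)) →
    Even {v : α | (convexHull ℝ (z '' ((S.erase v : Finset α) : Set α)) ∩
      convexHull ℝ (z '' ((Sᶜ.erase v : Finset α) : Set α))).Nonempty}.ncard

/-- PARI (hypothesis PARB). The parity identity for the intersection indicators.

Proof. Apply PARB to `α = {v // v ∈ σ} ⊕ {i // i ∈ A}` (its cardinality is `d + 3`), the points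
`z = Sum.elim (fun v => v) (fun i => X i (f i))` and `S` = the indices of the first kind. For a
set `t` of at most `d + 1` indices, let `τ ⊆ σ` be the set of its points of the first kind and
`y = {(i, f i)}` the set of pairs for its indices of the second kind; `GP` gives the affine
independence of `Sum.elim (τ) (y)`, and `t` embeds into `τ ⊕ y` compatibly with the points
(`AffineIndependent.comp_embedding`). For `v` of the first kind `S.erase v` has the image
`σ.erase v` and `Sᶜ.erase v = Sᶜ` has the image `{X i (f i) : i ∈ A}`; similarly for the second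
kind. So the even number of PARB is `#{v ∈ σ : Ind (σ.erase v) A f = 1} +
#{i ∈ A : Ind σ (A.erase i) f = 1}`, and the two sums modulo 2 are equal. -/
def S_PARI : Prop :=
  ∀ (d n : ℕ) (X : Fin (d + 1) → Fin n → E d) (σ : Finset (E d)) (A : Finset (Fin (d + 1)))
    (f : Tup d n), σ.card + A.card = d + 3 → GP (unc X) {τ | τ ⊆ σ} →
    ∑ v ∈ σ, Ind X (σ.erase v) A f = ∑ i ∈ A, Ind X σ (A.erase i) f

/-! ## General position -/

/-- AVOID (no hypotheses). A nonempty open set of `ℝ^d` is not covered by finitely many proper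
affine subspaces.

Proof. A proper affine subspace has measure zero (`MeasureTheory.Measure.addHaar_affineSubspace`),
so a finite union has measure zero, whereas a nonempty open set has positive measure
(`IsOpen.measure_pos`). -/
def S_AVOID : Prop :=
  ∀ (d : ℕ) (𝒜 : Set (AffineSubspace ℝ (E d))), 𝒜.Finite → (∀ S ∈ 𝒜, S ≠ ⊤) →
    ∀ U : Set (E d), IsOpen U → U.Nonempty → ∃ q ∈ U, ∀ S ∈ 𝒜, q ∉ S

/-- GENPOS (hypothesis AVOID). Perturbation into general position relative to a finite set `F` of
affinely independent finite sets.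

Proof. By induction on a finset `s` of indices one shows: there is `X'` with
`dist (X' i) (X i) < ε` for all `i` such that for all `σ ∈ F` and all `y ⊆ s` with
`|σ| + |y| ≤ d + 1` the family `Sum.elim σ X'|y` is affinely independent. For `s = ∅` take
`X' = X` (`y = ∅`; the family over `σ ⊕ ∅` is the family `σ`). For `insert a s`, `a ∉ s`: keep
`X'` on the other indices and choose the new value `q = X' a` in the open ball of radius `ε`
around `X a` outside the affine spans of all sets `σ ∪ X'(y)`, `σ ∈ F`, `y ⊆ s`,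
`|σ| + |y| ≤ d`; these are finitely many subspaces, all proper as they are spanned by at most `d`
points (dimension at most `d - 1`; for `d = 0` the span of no point is empty). For `y ⊆ s` nothing
changes. For `y = insert a y'` with `y' ⊆ s`: `σ, X'(y')` is affinely independent and `q` is not
in its span, so the family with `q` added is affinely independent
(`AffineIndependent.affineIndependent_of_notMem_span`). -/
def S_GENPOS : Prop :=
  ∀ (d : ℕ) (ι : Type) [Finite ι] (X : ι → E d) (F : Set (Finset (E d))), F.Finite →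
    (∀ σ ∈ F, AffineIndependent ℝ (fun v : σ => (v : E d))) → ∀ ε : ℝ, 0 < ε →
    ∃ X' : ι → E d, (∀ i, dist (X' i) (X i) < ε) ∧ GP X' F

/-- EXTQ (hypothesis AVOID). A generic point can be added to the sets of `F`.

Proof. Choose `q ∈ U` outside of the singletons `{v}`, `v ∈ σ ∈ F` (proper subspaces since
`d ≥ 1`) and outside the affine spans of all `σ ∪ X(y)`, `σ ∈ F`, `|σ| + |y| ≤ d` (proper as they
are spanned by at most `d` points). If `|insert q σ| + |y| ≤ d + 1` then `|σ| + |y| ≤ d` (as
`q ∉ σ`), the family `σ, X(y)` is affinely independent by `GP X F`, and it remains so after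
adding `q` (`AffineIndependent.affineIndependent_of_notMem_span`). -/
def S_EXTQ : Prop :=
  ∀ (d : ℕ) (ι : Type) [Finite ι] (X : ι → E d) (F : Set (Finset (E d))), 1 ≤ d → F.Finite →
    GP X F → ∀ U : Set (E d), IsOpen U → U.Nonempty →
    ∃ q ∈ U, (∀ σ ∈ F, q ∉ σ) ∧ GP X (F ∪ {τ | ∃ σ ∈ F, ∀ v, v ∈ τ ↔ (v = q ∨ v ∈ σ)})

/-- H0 (hypotheses PARI, EXTQ). A point `p` in general position is in an even number of the
`2^(d+1)` simplices spanned by two points of every colour.

Proof. The complement of a large closed ball which contains all points `X i j` (and so their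
hull) is open and nonempty (`d ≥ 1`). By EXTQ (with `F = {∅, {p}}`) there is `q` in it with
`q ≠ p` such that `X` is in general position relative to `{∅, {p}, {q}, {p, q}}`, which contains
all subsets of `{p, q}`. PARI with `σ = {p, q}` and `A = univ` (`2 + (d + 1) = d + 3`) gives for
every tuple `h`: `Ind {q} univ h + Ind {p} univ h = ∑ i, Ind {p, q} (univ.erase i) h`. Here
`Ind {q} univ h = 0` because `q` is outside of the ball. Summing over the tuples
`h = mix f f' B`, `B ⊆ univ`: the term `Ind {p, q} (univ.erase i) (mix f f' B)` does not depend on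
whether `i ∈ B`, so the sum over `B` vanishes modulo 2 (pair `B` with its symmetric difference
with `{i}`, `Finset.sum_involution`). -/
def S_H0 : Prop :=
  ∀ (d n : ℕ) (X : Fin (d + 1) → Fin n → E d) (p : E d) (f f' : Tup d n), 1 ≤ d →
    GP (unc X) {∅, {p}} →
    ∑ B ∈ (univ : Finset (Fin (d + 1))).powerset, Ind X {p} univ (mix f f' B) = 0

/-! ## The chain argument (pure combinatorics) -/

/-- AVG (no hypotheses). Freezing a coordinate in a good way.

Proof. `{f | h (update f i w) ≠ 0}` has `n * #{f | f i = w ∧ h f ≠ 0}` elements (the value `f i` is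
free), so the sum over `w` of these numbers is `n * #{f | h f ≠ 0}`, and some `w` has at most the
average. -/
def S_AVG : Prop :=
  ∀ (d n : ℕ) (h : Tup d n → ZMod 2) (i : Fin (d + 1)), 1 ≤ n →
    ∃ w : Fin n, {f : Tup d n | h (Function.update f i w) ≠ 0}.ncard ≤
      {f : Tup d n | h f ≠ 0}.ncard

/-- The hypotheses of the chain argument. -/
structure ChainHyp {V : Type} [DecidableEq V] (d n : ℕ) (T : Finset (Finset V))
    (I : Finset V → Finset (Fin (d + 1)) → Tup d n → ZMod 2) (Far : Finset V → Prop)
    (b η : ℝ) : Prop where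
  hd : 1 ≤ d
  hn : 1 ≤ n
  hb : 0 ≤ b
  hη : 0 ≤ η
  cardT : ∀ s ∈ T, s.card = d + 1
  dep : ∀ σ A f f', (∀ i ∈ A, f i = f' i) → I σ A f = I σ A f'
  par : ∀ σ ∈ Faces T, ∀ A f, σ.card + A.card = d + 3 →
    ∑ v ∈ σ, I (σ.erase v) A f = ∑ i ∈ A, I σ (A.erase i) f
  base : ∀ σ ∈ Faces T, σ.card = 1 → ∀ f f',
    ∑ B ∈ (univ : Finset (Fin (d + 1))).powerset, I σ univ (mix f f' B) = 0
  cnt0 : ∀ σ ∈ Faces T, σ.card = 1 →
    (({f | I σ univ f ≠ 0}.ncard : ℕ) : ℝ) ≤ b * (n : ℝ) ^ (d + 1)
  cnt : ∀ σ ∈ Faces T, 2 ≤ σ.card → ∀ A : Finset (Fin (d + 1)), σ.card + A.card = d + 2 →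
    (({f | I σ A f ≠ 0}.ncard : ℕ) : ℝ) ≤ η * (n : ℝ) ^ (d + 1)
  far : ∀ σ, Far σ → ∀ A f, I σ A f = 0
  farsub : ∀ σ τ, Far σ → τ ⊆ σ → Far τ
  one : ∀ f, ∑ s ∈ T, I s {0} f = 1
  bdry : ∀ g : Finset V → ZMod 2, (∀ τ, Far τ → g τ = 0) →
    ∑ s ∈ T, ∑ v ∈ s, g (s.erase v) = 0

/-- The colours `0, …, d - k`. -/
def Acol (d k : ℕ) : Finset (Fin (d + 1)) := univ.filter (fun i => (i : ℕ) + k ≤ d)

/-- The chain of level `k` made from the correction `g`. -/
def Cf {V : Type} [DecidableEq V] {d n : ℕ} (k : ℕ)
    (I : Finset V → Finset (Fin (d + 1)) → Tup d n → ZMod 2)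
    (g : Finset V → Tup d n → ZMod 2) (σ : Finset V) (f : Tup d n) : ZMod 2 :=
  I σ (Acol d k) f + ∑ v ∈ σ, g (σ.erase v) f

/-- The properties of the correction at level `k`. -/
structure Lvl {V : Type} [DecidableEq V] (d n : ℕ) (T : Finset (Finset V))
    (I : Finset V → Finset (Fin (d + 1)) → Tup d n → ZMod 2) (Far : Finset V → Prop)
    (b η : ℝ) (k : ℕ) (g : Finset V → Tup d n → ZMod 2) : Prop where
  dep : ∀ σ ∈ Faces T, σ.card = k + 1 → ∀ f f', (∀ i ∈ Acol d k, f i = f' i) →
    Cf k I g σ f = Cf k I g σ f'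
  cnt : ∀ σ ∈ Faces T, σ.card = k + 1 →
    (({f | Cf k I g σ f ≠ 0}.ncard : ℕ) : ℝ) ≤
      ((k + 1).factorial : ℝ) * (b + k * η) * (n : ℝ) ^ (d + 1)
  closed : ∀ σ ∈ Faces T, σ.card = k + 1 → ∀ f f',
    ∑ B ∈ (Acol d k).powerset, Cf k I g σ (mix f f' B) = 0
  far : ∀ τ, Far τ → ∀ f, g τ f = 0

/-- STEP (hypothesis AVG). From level `k` to level `k + 1`.

Proof. Write `c = Cf k I g`, `a = d - k` (as an element of `Fin (d + 1)`), so that
`Acol d k = insert a (Acol d (k + 1))`, a disjoint union. For every finite set `τ` choose `w τ` by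
AVG for `h = c τ` and the coordinate `a`, and put
`g' τ f = c τ (update f a (w τ))` if `τ.card = k + 1` and `g' τ f = 0` otherwise.
Let `c' = Cf (k + 1) I g'`; for `σ ∈ Faces T` with `k + 2` elements all `σ.erase v`, `v ∈ σ`, are
faces with `k + 1` elements.

(dep) If `f, f'` agree on `Acol d (k + 1)` then `update f a w`, `update f' a w` agree on
`Acol d k`; use `ChainHyp.dep` and `Lvl.dep`.

(cnt) `{c' σ ≠ 0}` is contained in `{I σ (Acol d (k+1)) ≠ 0}` (at most `η n^(d+1)` elements by
`ChainHyp.cnt`, as `(k + 2) + (d - k) = d + 2`, where `|Acol d (k+1)| = d - k`) and the `k + 2`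
sets `{g' (σ.erase v) ≠ 0}`, each with at most `(k+1)! (b + k η) n^(d+1)` elements by the choice
of `w` and `Lvl.cnt`. The total is at most
`(η + (k+2) (k+1)! (b + k η)) n^(d+1) ≤ (k+2)! (b + (k+1) η) n^(d+1)`.

(closed) Let `f, f'` be given and `σ` a face with `k + 2` elements. For a face `τ` with `k + 1`
elements and any `x : Fin n`, apply `Lvl.closed` to `τ`, `update f a x`, `update f' a (w τ)`:
the subsets of `Acol d k` are the sets `B` and `insert a B`, `B ⊆ Acol d (k+1)`
(`Finset.sum_powerset_insert`), and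
`mix (update f a x) (update f' a w) B = update (mix f f' B) a x`,
`mix (update f a x) (update f' a w) (insert a B) = update (mix f f' B) a w`. Hence (mod 2)
`∑_B g' τ (mix f f' B) = ∑_B c τ (update (mix f f' B) a x)`, for any `x` independent of `τ`
(fix for instance `x = f a`). Therefore
`∑_B ∑_{v ∈ σ} g' (σ.erase v) (mix f f' B) = ∑_B ∑_{v ∈ σ} c (σ.erase v) (h_B)`,
`h_B = update (mix f f' B) a x`. Now `∑_{v ∈ σ} c (σ.erase v) h
= ∑_{v ∈ σ} I (σ.erase v) (Acol d k) h + ∑_{v ∈ σ} ∑_{u ∈ σ.erase v} g ((σ.erase v).erase u) h`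
and the double sum vanishes modulo 2 (it is symmetric in `u ≠ v`: `Finset.erase_right_comm`).
By `ChainHyp.par` (`(k+2) + (d-k+1) = d + 3`) the first sum is
`∑_{i ∈ Acol d k} I σ ((Acol d k).erase i) h`. Summing over `B` with `h = h_B`: for
`i ∈ Acol d (k+1)` the term `I σ ((Acol d k).erase i) h_B` does not depend on whether `i ∈ B`
(`ChainHyp.dep`), so its sum over `B` vanishes; for `i = a` it is `I σ (Acol d (k+1)) h_B
= I σ (Acol d (k+1)) (mix f f' B)`. So `∑_B ∑_{v} g' (σ.erase v) (mix f f' B) =
∑_B I σ (Acol d (k+1)) (mix f f' B)`, which is the claim `∑_B c' σ (mix f f' B) = 0`.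

(far) If `Far τ` then `I τ _ _ = 0` and all `τ.erase v` are far, so `g (τ.erase v) = 0`, thus
`c τ = 0` and `g' τ = 0`. -/
def S_STEP : Prop :=
  ∀ (V : Type) [DecidableEq V] (d n : ℕ) (T : Finset (Finset V))
    (I : Finset V → Finset (Fin (d + 1)) → Tup d n → ZMod 2) (Far : Finset V → Prop)
    (b η : ℝ), ChainHyp d n T I Far b η → ∀ k : ℕ, k + 1 ≤ d →
    ∀ g : Finset V → Tup d n → ZMod 2, Lvl d n T I Far b η k g →
    ∃ g' : Finset V → Tup d n → ZMod 2, Lvl d n T I Far b η (k + 1) g'

/-- CHAIN (hypothesis STEP). The conclusion of the chain argument.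

Proof. Level 0 holds with `g = 0`: `Acol d 0 = univ`, `Cf 0 I 0 σ f = I σ univ f`, use `dep`,
`cnt0`, `base` of `ChainHyp`. By induction with STEP there is `g` at level `d`. Here
`Acol d d = {0}`. Let `s ∈ T` (so `s` is a face with `d + 1` elements) and `c = Cf d I g`. The
property `closed` reads `c s f + c s (mix f f' {0}) = 0` and `mix f f' {0}` agrees with `f'` on
`{0}`, so `c s f = c s f'` for all `f, f'` by `dep`. Suppose `(d+1)! (b + d η) < 1`. Then by `cnt`
the set `{c s ≠ 0}` is not the set of all `n^(d+1)` tuples, so `c s = 0` identically. Choose a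
tuple `f` (`n ≥ 1`). Then `0 = ∑_{s ∈ T} c s f = ∑_{s ∈ T} I s {0} f +
∑_{s ∈ T} ∑_{v ∈ s} g (s.erase v) f = 1 + 0` by `one` and `bdry` (applied to
`τ ↦ g τ f`), a contradiction. -/
def S_CHAIN : Prop :=
  ∀ (V : Type) [DecidableEq V] (d n : ℕ) (T : Finset (Finset V))
    (I : Finset V → Finset (Fin (d + 1)) → Tup d n → ZMod 2) (Far : Finset V → Prop)
    (b η : ℝ), ChainHyp d n T I Far b η → 1 ≤ ((d + 1).factorial : ℝ) * (b + d * η)

/-! ## The Freudenthal triangulation -/

/-- The vertex number `j` of the Freudenthal simplex `(a, π)`: start at `a` and raise the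
coordinates `π 0, π 1, …, π (j - 1)` by one. -/
def kv {d : ℕ} (a : Fin d → ℤ) (π : Equiv.Perm (Fin d)) (j : Fin (d + 1)) : Fin d → ℤ :=
  fun i => a i + if ((π.symm i : Fin d) : ℕ) < (j : ℕ) then 1 else 0

/-- The set of vertices of the simplex `(a, π)`. -/
def ks {d : ℕ} (a : Fin d → ℤ) (π : Equiv.Perm (Fin d)) : Finset (Fin d → ℤ) :=
  univ.image (kv a π)

/-- The convex hull in `ℝ^d` of a set of integer points. -/
def zh {d : ℕ} (s : Finset (Fin d → ℤ)) : Set (Fin d → ℝ) :=
  convexHull ℝ ((fun (v : Fin d → ℤ) (i : Fin d) => (v i : ℝ)) '' (s : Set (Fin d → ℤ)))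

/-- K1 (no hypotheses). The vertices of a simplex are distinct and determine `(a, π)`.

Proof. The sum of the coordinates of `kv a π j` is `∑ a + j` (exactly `j` indices `i` have
`π.symm i < j`); so `kv a π` is injective. If `ks a π = ks b ρ`, then comparing the minimal
coordinate sums gives `∑ a = ∑ b`, and the unique element of coordinate sum `∑ a + j` is
`kv a π j = kv b ρ j`, for every `j`. For `j = 0` this gives `a = b`, and then
`π.symm i < j ↔ ρ.symm i < j` for all `i, j`, so `π = ρ`. -/
def S_K1 : Prop :=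
  ∀ (d : ℕ) (a : Fin d → ℤ) (π : Equiv.Perm (Fin d)), Function.Injective (kv a π) ∧
    ∀ (b : Fin d → ℤ) (ρ : Equiv.Perm (Fin d)), ks a π = ks b ρ → a = b ∧ π = ρ

/-- K2 (hypothesis K1). The neighbour across a facet, as an involution on the pairs (simplex,
omitted vertex).

Proof. Let `x = ((a, π), j)`. If `0 < j < d`, the neighbour is `((a, π * swap (j-1) j), j)`. If
`j = 0`, it is `((a + e_(π 0), π * finRotate d), d)`, that is `π' m = π (m + 1)` cyclically. If
`j = d`, it is `((a - e_(π (d-1)), π * (finRotate d)⁻¹), 0)`. It is easily checked that this is an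
involution without fixed points (`j` changes in the last two cases since `d ≥ 1`, and `π` in the
first) and that the remaining `d` vertices are the same: in the first case
`kv a π' l = kv a π l` for `l ≠ j`; in the second `kv a' π' l = kv a π (l + 1)` for `l < d`; the
third is the inverse of the second. The omitted vertex is not among the others by K1, so the
facet is the set of the other vertices. If `a' i ≠ a i` then we are in the second case with
`i = π 0`, `a' i = a i + 1`, and all vertices of the facet have the `i`-th coordinate `a i + 1`, or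
in the third case with `i = π (d - 1)`, `a' i = a i - 1`, and they have the `i`-th coordinate
`a i`. -/
def S_K2 : Prop :=
  ∀ d : ℕ, 1 ≤ d →
    ∃ nb : ((Fin d → ℤ) × Equiv.Perm (Fin d)) × Fin (d + 1) →
        ((Fin d → ℤ) × Equiv.Perm (Fin d)) × Fin (d + 1),
      ∀ x, nb (nb x) = x ∧ nb x ≠ x ∧
        (ks (nb x).1.1 (nb x).1.2).erase (kv (nb x).1.1 (nb x).1.2 (nb x).2) =
          (ks x.1.1 x.1.2).erase (kv x.1.1 x.1.2 x.2) ∧
        ∀ i, (nb x).1.1 i ≠ x.1.1 i → |(nb x).1.1 i - x.1.1 i| ≤ 1 ∧
          ∀ v ∈ (ks x.1.1 x.1.2).erase (kv x.1.1 x.1.2 x.2), v i = max ((nb x).1.1 i) (x.1.1 i)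

/-- K3 (hypothesis K1). The inequalities of the simplex `(a, π)`: `x` is in the closed simplex iff
`1 ≥ y (π 0) ≥ y (π 1) ≥ … ≥ y (π (d-1)) ≥ 0` for `y = x - a`; and if moreover `x` is on no facet
then all inequalities are strict.

Proof. Let `y m` (`m : Fin d`) be `x (π m) - a (π m)` and put `Y 0 = 1`, `Y (m + 1) = y m`,
`Y (d + 1) = 0`. If `x = ∑_j t_j • v_j` with `v_j = kv a π j`, `∑ t_j = 1`, `t_j ≥ 0`, then
`y m = ∑_{j > m} t_j` as the coordinate `π m` of `v_j - a` is 1 if `m < j` and 0 otherwise. This
gives the inequalities. Conversely, given the inequalities put `t_j = Y j - Y (j + 1) ≥ 0`; then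
`∑ t_j = Y 0 - Y (d+1) = 1` and `∑_{j > m} t_j = Y (m + 1) = y m`, so `x = ∑ t_j • v_j` is in the
simplex. If `Y j = Y (j+1)` for some `j`, that is if `t_j = 0`, then `x` is in the hull of the
facet opposite to `v_j`. So for `x` on no facet all inequalities are strict. -/
def S_K3 : Prop :=
  ∀ (d : ℕ) (a : Fin d → ℤ) (π : Equiv.Perm (Fin d)) (x : Fin d → ℝ), 1 ≤ d →
    (x ∈ zh (ks a π) ↔ (∀ i, (a i : ℝ) ≤ x i ∧ x i ≤ a i + 1) ∧
      ∀ l m : Fin d, l ≤ m → x (π m) - a (π m) ≤ x (π l) - a (π l)) ∧
    (x ∈ zh (ks a π) → (∀ j, x ∉ zh ((ks a π).erase (kv a π j))) →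
      (∀ i, (a i : ℝ) < x i ∧ x i < a i + 1) ∧
      ∀ l m : Fin d, l < m → x (π m) - a (π m) < x (π l) - a (π l))

/-- K4 (hypothesis K3). The simplices cover, and two simplices containing a point that is on no
facet of them are equal.

Proof. Let `a i = ⌊x i⌋` and let `π` sort the numbers `x i - a i` in decreasing order
(`Tuple.sort`); K3 shows that `x` is in the simplex `(a, π)`. If `x` is in `(a, π)` and in
`(b, ρ)` and on none of their facets, the strict inequalities of K3 give `a i = ⌊x i⌋ = b i` and
that both `π` and `ρ` sort the numbers `x i - a i` strictly decreasingly, so `π = ρ`: the map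
`ρ⁻¹ ∘ π` is a strictly monotone permutation of `Fin d`, thus the identity (or
`π.symm i` is the number of `i'` with `x i' - a i' > x i - a i`, and the same for `ρ`). -/
def S_K4 : Prop :=
  ∀ (d : ℕ) (x : Fin d → ℝ), 1 ≤ d →
    (∃ (a : Fin d → ℤ) (π : Equiv.Perm (Fin d)), x ∈ zh (ks a π)) ∧
    ∀ (a b : Fin d → ℤ) (π ρ : Equiv.Perm (Fin d)), x ∈ zh (ks a π) → x ∈ zh (ks b ρ) →
      (∀ j, x ∉ zh ((ks a π).erase (kv a π j))) → (∀ j, x ∉ zh ((ks b ρ).erase (kv b ρ j))) →
      a = b ∧ π = ρ

/-- FREUD (hypotheses K1, K2, K3, K4). A fine triangulation of a large ball.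

Proof. Choose `h > 0` with `h * √d ≤ δ` (for instance `h = δ / (d + 1)`) and a natural number
`M` with `h * (M - 1) > R`, `M ≥ 1`. For an integer point `v` let `P v = h • v ∈ ℝ^d`; this is an
injective map `(Fin d → ℤ) → E d` (and it extends to the linear bijection
`(Fin d → ℝ) → E d`, `x ↦ h • x`, which maps `zh s` onto the hull of `P '' s`). Let `T` be the set
of all images `P (ks a π)`, `-M ≤ a i < M` for all `i` (a finite index set:
`Fintype.piFinset (fun _ => Finset.Ico (-M) M) ×ˢ univ`); by K1 the map `(a, π) ↦ P (ks a π)` is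
injective and the sets have `d + 1` elements. Affine independence: an affine combination
`∑ t_j v_j` with `∑ t_j = 0`, `∑ t_j v_j = 0` has `∑_{j > m} t_j = 0` for all `m` (the coordinate
`π m`; here `v_j - a` has the coordinate 1 iff `m < j`), so all `t_j = 0`. Distances: the vertices
differ by a 0-1 vector (up to sign), so by at most `h √d ≤ δ`.
(Covering) Let `‖x‖ ≤ R`. Then `x / h` has coordinates of absolute value less than `M - 1`,
and the simplex `(a, π)` of K4 containing `x / h` has `a i ≤ x i / h ≤ a i + 1` by K3, so it is in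
`T`. Uniqueness by K4, as `x` is on no facet of the members of `T`.
(Boundary) `∑_{s ∈ T} ∑_{v ∈ s} g (s.erase v)` is the sum over all `((a, π), j)` with
`-M ≤ a < M` of `g (facet)`, by the injectivity. Use `Finset.sum_involution` with the map
`x ↦ nb x` if `nb x` is in the index set and `x ↦ x` otherwise: the facets of `x` and `nb x`
agree, so their contributions cancel modulo 2; if `nb x` is not in the index set, then some
coordinate `i` has `nb x i = M, x i = M - 1` or `nb x i = -M - 1, x i = -M` (because
`|nb x i - x i| ≤ 1`), and all vertices `v` of the facet have `v i = max = M` or `-M`. So all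
points of the hull of the facet have `i`-th coordinate `± h M` and norm `≥ h M > R`, thus the
facet is far and its contribution is 0. -/
def S_FREUD : Prop :=
  ∀ (d : ℕ) (δ R : ℝ), 1 ≤ d → 0 < δ → 0 < R → ∃ T : Finset (Finset (E d)),
    (∀ s ∈ T, s.card = d + 1 ∧ AffineIndependent ℝ (fun v : s => (v : E d)) ∧
      ∀ u ∈ s, ∀ v ∈ s, dist u v ≤ δ) ∧
    (∀ x : E d, ‖x‖ ≤ R →
      (∀ s ∈ T, ∀ v ∈ s, x ∉ convexHull ℝ ((s.erase v : Finset (E d)) : Set (E d))) →
      ∃! s, s ∈ T ∧ x ∈ convexHull ℝ (s : Set (E d))) ∧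
    (∀ g : Finset (E d) → ZMod 2,
      (∀ τ : Finset (E d),
        Disjoint (convexHull ℝ (τ : Set (E d))) (Metric.closedBall 0 R) → g τ = 0) →
      ∑ s ∈ T, ∑ v ∈ s, g (s.erase v) = 0)

/-! ## The selection theorem in general position -/

/-- SM1 (no hypotheses). In general position a point `q` is in the hull of few lower-dimensional
transversal simplices.

Proof. By induction on `A` (`Finset.induction_on`). For `A = ∅` the hull is empty. Let
`A = insert i A'`, `i ∉ A'`, `|A'| ≤ d - 1`. The set `{f | q ∈ hullX X A f}` is contained in the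
union of `{f | q ∈ hullX X A' f}` (at most `|A'| n^d` elements) and
`N = {f | q ∈ hullX X A f, q ∉ affineSpan (X_f(A'))}`: indeed if `q` is in `hullX X A f` and in
the affine span of `X_f(A')`, then by the affine independence of the points `X_f(A)`
(`|A| ≤ d ≤ d + 1`) the coefficient of `X i (f i)` in the convex combination for `q` vanishes and
so `q ∈ hullX X A' f`. And `N` has at most `n^d` elements, because `f ∈ N` is determined by its
values at the colours different from `i`: let `f, f' ∈ N` agree outside of `i`, with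
`f i ≠ f' i`. Then `q = t • X i (f i) + (1 - t) • u` with `u` in the hull of `X_f(A')`, `0 < t`
(if `t = 0` then `q = u` is in the span; if `A'` is empty then `q = X i (f i)`), so `X i (f i)` is
in the affine span of `q` and `X_f(A')`, and in the same way `q` is in the affine span of
`X i (f' i)` and `X_f(A')`. Hence `X i (f i)` is in the affine span of `X i (f' i)` and
`X_f(A')`, which contradicts the affine independence of the `|A| + 1 ≤ d + 1` points
`X_f(A'), X i (f i), X i (f' i)`. The map `f ↦ (f restricted to {j // j ≠ i})` is injective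
on `N` and its target has `n^d` elements. -/
def S_SM1 : Prop :=
  ∀ (d n : ℕ) (X : Fin (d + 1) → Fin n → E d), GP (unc X) {∅} →
    ∀ A : Finset (Fin (d + 1)), A.card ≤ d → ∀ q : E d,
    {f : Tup d n | q ∈ hullX X A f}.ncard ≤ A.card * n ^ d

/-- SM2 (no hypotheses). A uniform constant for a finite family of compact sets.

Proof. Suppose not. For every `m` there is `x_m` such that the set `J_m` of all `j` with
`infDist (x_m) (K j) ≤ 1 / (m + 1)` has no common point (in particular `J_m` is not empty, as for
an empty set of indices every `q` works). There are finitely many sets of indices, so one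
`J'` is `J_m` for infinitely many `m`; these `x_m` are in a bounded set (`J'` is nonempty, `K j` is
bounded), so along a subsequence they converge to some `x`, and `infDist x (K j) = 0`, so
`x ∈ K j` for all `j ∈ J'`, a contradiction. (Alternative: for every `J'` without a common point
the continuous function `∑_{j ∈ J'} infDist x (K j)` is positive and tends to infinity, so it has
a positive minimum.) -/
def S_SM2 : Prop :=
  ∀ (d : ℕ) (J : Type) [Finite J] (K : J → Set (E d)),
    (∀ j, IsCompact (K j) ∧ (K j).Nonempty) →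
    ∃ δ : ℝ, 0 < δ ∧ ∀ x : E d, ∃ q : E d, ∀ j, Metric.infDist x (K j) ≤ δ → q ∈ K j

/-- SELA (hypotheses SM1, SM2). Small simplices meet few lower-dimensional transversal simplices,
uniformly for all configurations near `X`.

Proof. Apply SM2 to the family of the sets `hullX X A f`, `A` nonempty (index type
`{A : Finset (Fin (d+1)) // A.Nonempty} × Tup d n`), and let `δ` be half of the constant. Let
`X''`, `σ`, `A` be as in the statement, `A` nonempty without loss of generality (for `A = ∅` the
hull is empty). Fix `v ∈ σ` (if `σ = ∅` the set is empty). If `z` is in the hull of `σ` and in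
`hullX X'' A f`, then `dist z v ≤ δ` (the ball of radius `δ` around `v` is convex and contains
`σ`), and the distance of `z` to `hullX X A f` is at most `δ` (replace the points `X'' i (f i)` by
`X i (f i)` in a convex combination). So `infDist v (hullX X A f) ≤ 2 δ`, and the point `q` of SM2
for `x = v` is in `hullX X A f`. By SM1 there are at most `|A| n^d ≤ d n^d` such `f`. -/
def S_SELA : Prop :=
  ∀ (d n : ℕ) (X : Fin (d + 1) → Fin n → E d), GP (unc X) {∅} →
    ∃ δ : ℝ, 0 < δ ∧ ∀ X'' : Fin (d + 1) → Fin n → E d,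
      (∀ i j, dist (X'' i j) (X i j) ≤ δ) →
      ∀ σ : Finset (E d), (∀ u ∈ σ, ∀ v ∈ σ, dist u v ≤ δ) →
      ∀ A : Finset (Fin (d + 1)), A.card ≤ d →
      {f : Tup d n | (convexHull ℝ (σ : Set (E d)) ∩ hullX X'' A f).Nonempty}.ncard ≤ d * n ^ d

/-- SEL (hypotheses PARI, GENPOS, H0, CHAIN, FREUD, SELA). The colourful selection theorem after a
small perturbation.

Proof. Let `n1 = 2 (d+1)! d² + 1`. Given `n ≥ n1`, `X` and `ε`, take `X'` within `ε / 2` of `X`
in general position relative to `{∅}` (GENPOS for the family `unc X`), `δ` from SELA for `X'`, `R`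
with `‖X' i j‖ + ε + 1 ≤ R` for all `i, j`, `T` from FREUD for `δ, R`, and `X''` within
`min (ε / 2) δ` of `X'` in general position relative to `Faces T` (GENPOS; `Faces T` is finite and
its members are affinely independent as subsets of the members of `T`). If some vertex `p` (that
is `{p} ∈ Faces T`) has `n^(d+1) ≤ 2 (d+1)! #{f | p ∈ hullX X'' univ f}` we are done, because
`{∅, {p}} ⊆ Faces T`. Otherwise `ChainHyp d n T I Far b η` holds with `I = Ind X''`,
`Far τ := Disjoint (convexHull τ) (closedBall 0 R)`, `b = 1 / (2 (d+1)!)`, `η = d / n`: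
cardT is in FREUD; dep is clear; par is PARI (subsets of faces are faces); base is H0; cnt0 is the
assumption just made (`σ = {p}`, and `Ind X'' {p} univ f ≠ 0 ↔ p ∈ hullX X'' univ f`); cnt is SELA
(`|A| ≤ d` as `|σ| ≥ 2`, and `d n^d = (d / n) n^(d+1)`); far: all points `X'' i j` are in the
convex set `closedBall 0 R`; farsub: monotonicity of the hull; one: `Ind X'' s {0} f = 1` iff the
point `x = X'' 0 (f 0)` is in the hull of `s`, and `x` is on no facet `s.erase v` since these `d`
points together with `x` are affinely independent (general position relative to the face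
`s.erase v`, `y = {(0, f 0)}`), so by FREUD exactly one `s ∈ T` contains `x`; bdry is FREUD.
CHAIN gives `1 ≤ (d+1)! (b + d² / n) = 1/2 + (d+1)! d² / n < 1`, a contradiction. -/
def S_SEL : Prop :=
  ∀ d : ℕ, 1 ≤ d → ∃ n1 : ℕ, ∀ n : ℕ, n1 ≤ n → ∀ (X : Fin (d + 1) → Fin n → E d) (ε : ℝ), 0 < ε →
    ∃ (X'' : Fin (d + 1) → Fin n → E d) (p : E d), (∀ i j, dist (X'' i j) (X i j) < ε) ∧
      GP (unc X'') {∅, {p}} ∧
      n ^ (d + 1) ≤ 2 * (d + 1).factorial * {f : Tup d n | p ∈ hullX X'' univ f}.ncard

/-! ## Weak regularity, centerpoints, homogeneity -/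

/-- REG (no hypotheses). Weak regularity by density increments.

Proof. For sets `Y i` put `H(Y) = #{f ∈ H | ∀ i, f i ∈ Y i}` and let `x = ε^(d+1)`. Choose `K`
with `β > (1 - x)^K`. Claim: for all `k` and all `Y` with `|Y i| ≥ 2 / ε^k` and
`H(Y) > (1 - x)^k ∏ |Y i|` there is `Y'` with `Y' i ⊆ Y i`, `|Y' i| ≥ ε^k |Y i|` such that all
`Z i ⊆ Y' i` with `|Z i| ≥ ε |Y' i|` contain a tuple of `H`. Induction on `k`. For `k = 0` the
hypothesis `H(Y) > ∏ |Y i|` is absurd. For `k + 1`: if `Y` itself has the property take `Y' = Y`.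
Otherwise there are `Z i ⊆ Y i` with `|Z i| ≥ ε |Y i|` and no tuple of `H`; by shrinking we may
assume `|Z i| = ⌈ε |Y i|⌉`, and then `|Y i ∖ Z i| ≥ |Y i| - ε |Y i| - 1 ≥ |Y i| / 4 ≥ ε |Y i|`
because `ε ≤ 1/4` and `|Y i| ≥ 2`. The box `∏ Y i` is the disjoint union of the `2^(d+1)` boxes
`∏ U i`, `U i ∈ {Z i, Y i ∖ Z i}`. The box `∏ Z i` has no tuple of `H` and
`∏ |Z i| ≥ x ∏ |Y i|`. If all other boxes had `H(U) ≤ (1 - x)^k ∏ |U i|`, then
`H(Y) ≤ (1 - x)^k (∏ |Y i| - ∏ |Z i|) ≤ (1 - x)^(k+1) ∏ |Y i|`, a contradiction. So some box `U`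
has `H(U) > (1 - x)^k ∏ |U i|`; its sides have `|U i| ≥ ε |Y i| ≥ 2 / ε^k`, and the induction
hypothesis applies. The theorem follows with `c = ε^K` and `n2 = ⌈2 / ε^K⌉` (at least 1) from
`Y i = univ`, where `H(Y) = |H| ≥ β n^(d+1) > (1 - x)^K n^(d+1)`. -/
def S_REG : Prop :=
  ∀ (d : ℕ) (β ε : ℝ), 0 < β → 0 < ε → ε ≤ 1 / 4 → ∃ c : ℝ, 0 < c ∧ ∃ n2 : ℕ, ∀ n : ℕ, n2 ≤ n →
    ∀ H : Set (Tup d n), β * (n : ℝ) ^ (d + 1) ≤ (H.ncard : ℝ) →
    ∃ Y : Fin (d + 1) → Finset (Fin n), (∀ i, c * (n : ℝ) ≤ ((Y i).card : ℝ)) ∧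
      ∀ Z : Fin (d + 1) → Finset (Fin n),
        (∀ i, Z i ⊆ Y i ∧ ε * ((Y i).card : ℝ) ≤ ((Z i).card : ℝ)) →
        ∃ f ∈ H, ∀ i, f i ∈ Z i

/-- CENTER (no hypotheses). The centerpoint theorem.

Proof. Let `N` be the number of elements of `κ`. Consider the convex hulls of the sets
`{x y : y ∈ S}` for all `S ⊆ κ` with `(d + 1) |S| > d N`. Any `d + 1` of them have a common point:
the complements of `d + 1` such sets have less than `N` elements together, so some `y` is in all
of them. By Helly's theorem (`Convex.helly_theorem'` or `Convex.helly_theorem`; the family is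
finite; if it has at most `d` members, the same counting applies, or use the version of Mathlib
which handles this) all the hulls have a common point `z`. Let `a` be given and let `S` be the set
of all `y` with `⟪a, x y⟫ < ⟪a, z⟫`. If `(d + 1) |S| > d N` then `z` is in the hull of the `x y`,
`y ∈ S`, which is contained in the open half-space `⟪a, ·⟫ < ⟪a, z⟫`, a contradiction. So
`(d + 1) |S| ≤ d N` and `(d + 1) |Sᶜ| ≥ N`. -/
def S_CENTER : Prop :=
  ∀ (d : ℕ) (κ : Type) [Fintype κ] [Nonempty κ] (x : κ → E d), ∃ z : E d, ∀ a : E d,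
    Fintype.card κ ≤ (d + 1) * {y : κ | inner ℝ a z ≤ inner ℝ a (x y)}.ncard

/-- CUT (hypothesis CENTER). Separation from one colour after the choice of large parts.

Proof. Put `Z i = Y i`. For `j ≠ i` let `z j` be a centerpoint of the points `X j y`, `y ∈ Y j`
(CENTER with `κ = Y j`).
Case 1: `p` is not in the hull of the `d` points `z j`, `j ≠ i`. The hull is compact and convex, so
there is `a` with `⟪a, p⟫ < ⟪a, z j⟫` for all `j ≠ i` (`geometric_hahn_banach_point_closed` and
Riesz; or take `a` = (nearest point of the hull) `- p`). Put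
`Z j = {y ∈ Y j | ⟪a, z j⟫ ≤ ⟪a, X j y⟫}`. Then `|Y j| ≤ (d + 1) |Z j|` and all points `X j y`,
`y ∈ Z j`, `j ≠ i`, are in the open half-space `⟪a, ·⟫ > ⟪a, p⟫`, so `p` is not in their hull.
Case 2: `p` is in this hull. The `d - 1` differences `z j - z j0` (`j ≠ i, j0`; `j0 ≠ i` fixed,
`d ≥ 1`) do not span `ℝ^d`, so there is `a ≠ 0` orthogonal to all of them; then `⟪a, z j⟫` is the
same number for all `j ≠ i`, and it is `⟪a, p⟫` as `p` is in the hull. Put
`Z j = {y ∈ Y j | ⟪a, p⟫ < ⟪a, X j y⟫}`. Again `p` is not in the hull of the points `X j y`,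
`y ∈ Z j`, `j ≠ i`. At most `d - 1` of all the points `X j y` are in the hyperplane
`⟪a, ·⟫ = ⟪a, p⟫`: otherwise `p` and `d` of them would be `d + 1` points in a hyperplane, which
are not affinely independent, against the general position (relative to `{p}`). So
`|Z j| ≥ |Y j| / (d + 1) - d ≥ |Y j| / (2 (d + 1))` because `|Y j| ≥ 2 (d + 1) d`. -/
def S_CUT : Prop :=
  ∀ (d n : ℕ) (X : Fin (d + 1) → Fin n → E d) (p : E d), 1 ≤ d → GP (unc X) {∅, {p}} →
    ∀ (i : Fin (d + 1)) (Y : Fin (d + 1) → Finset (Fin n)),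
    (∀ j, 2 * (d + 1) * d ≤ (Y j).card) →
    ∃ Z : Fin (d + 1) → Finset (Fin n),
      (∀ j, Z j ⊆ Y j ∧ (Y j).card ≤ 2 * (d + 1) * (Z j).card) ∧
      p ∉ convexHull ℝ {x : E d | ∃ j, j ≠ i ∧ ∃ y ∈ Z j, x = X j y}

/-- HOM (no hypotheses). If no point set that misses a colour has `p` in its hull, then either all
or none of the transversal simplices contain `p`.

Proof. Pivot lemma: if `p ∈ convexHull (range z)`, `z : Fin (d + 1) → E d`, and `w ∈ E d`, then
there is `l` with `p ∈ convexHull ({w} ∪ {z j : j ≠ l})`. Indeed the `d + 2` points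
`w, z 0, …, z d` have a nontrivial affine dependence `α w + ∑ μ j z j = 0`, `α + ∑ μ j = 0`, and
we may assume `α ≥ 0`. Some `μ j` is negative: if `α > 0` because `∑ μ j < 0`, if `α = 0` because
`∑ μ j = 0` and `μ ≠ 0`. Write `p = ∑ λ j z j` (nonnegative, sum 1) and let `t` be the minimum of
`λ j / (- μ j)` over all `j` with `μ j < 0`, attained at `l`. Then
`p = t α w + ∑ (λ j + t μ j) z j` is a convex combination with vanishing coefficient of `z l`.
Now let `f` be a transversal with `p ∈ hullX X univ f`, `f i ∈ Z i` for all `i`, and let `f'` be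
another one. Change one coordinate at a time (induction on the set of changed colours): if
`p ∈ hullX X univ f` and `w = X i y`, `y ∈ Z i`, the pivot lemma gives `l`; if `l ≠ i` then `p` is
in the hull of points of colours different from `l` (the point `w` has the colour `i ≠ l`), a
contradiction; so `l = i` and `p` is in the hull of the points of the tuple `update f i y`. -/
def S_HOM : Prop :=
  ∀ (d n : ℕ) (X : Fin (d + 1) → Fin n → E d) (p : E d) (Z : Fin (d + 1) → Finset (Fin n)),
    (∀ i, p ∉ convexHull ℝ {x : E d | ∃ j, j ≠ i ∧ ∃ y ∈ Z j, x = X j y}) →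
    (∃ f : Tup d n, (∀ i, f i ∈ Z i) ∧ p ∈ hullX X univ f) →
    ∀ f : Tup d n, (∀ i, f i ∈ Z i) → p ∈ hullX X univ f

/-- PGP (hypotheses SEL, REG, CUT, HOM). Pach's theorem up to a perturbation.

Proof. Let `β = 1 / (2 (d+1)!)` and `ε0 = (2 (d+1))^(-(d+1))` (at most `1/4` as `d ≥ 1`), `c0, n2`
from REG, `n1` from SEL, and let `n` be at least `n1`, `n2` and so large that
`c0 n ε0 ≥ 2 (d+1) d`. Given `X, ε` take `X'', p` from SEL and `Y` from REG for
`H = {f | p ∈ hullX X'' univ f}`. Apply CUT successively for `i = 0, 1, …, d`, starting with `Y`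
and each time with the result of the last step (induction over `k ≤ d + 1`: there is `Z` with
`Z j ⊆ Y j`, `|Y j| ≤ (2 (d+1))^k |Z j|` and `p` not in the hull of the points of colours `≠ i`
for all `i < k`; note that this property is inherited by subsets). This gives `Z` with
`|Z j| ≥ ε0 |Y j|` such that `p` is not in the hull of `{X'' j y : j ≠ i, y ∈ Z j}` for every `i`;
the sizes needed for CUT are guaranteed by `|Z j| ≥ ε0 c0 n ≥ 2 (d+1) d`. By the property of `Y`
there is a tuple `f ∈ H` with `f i ∈ Z i` for all `i`. HOM shows that all tuples in `∏ Z i` have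
`p` in their hull. Take `c = c0 ε0`. -/
def S_PGP : Prop :=
  ∀ d : ℕ, 1 ≤ d → ∃ c : ℝ, 0 < c ∧ ∃ n0 : ℕ, ∀ n : ℕ, n0 ≤ n →
    ∀ (X : Fin (d + 1) → Fin n → E d) (ε : ℝ), 0 < ε →
    ∃ (X'' : Fin (d + 1) → Fin n → E d) (p : E d) (Z : Fin (d + 1) → Finset (Fin n)),
      (∀ i j, dist (X'' i j) (X i j) < ε) ∧ (∀ i, c * (n : ℝ) ≤ ((Z i).card : ℝ)) ∧
      ∀ f : Tup d n, (∀ i, f i ∈ Z i) → p ∈ hullX X'' univ f

/-- LIM (no hypotheses). The limit of the perturbations.

Proof. For every `m` take `X_m, p_m, Z_m` for `ε = 1 / (m + 1)`. There are finitely many `Z`, so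
one of them occurs for infinitely many `m`. If some `Z i` is empty there is nothing to show for
this `Z` (any `p`). Otherwise fix a tuple `f0` with values in `Z`; the points `p_m` are in the
hulls of the points `X_m i (f0 i)`, so they stay in a bounded set, and a subsequence converges to
some `p`. For every tuple `f` with values in `Z`, the point `p_m` has distance at most
`1 / (m + 1)` from the compact set `hullX X univ f` (replace the points `X_m i (f i)` by
`X i (f i)` in the convex combination), so `p` is in this closed set. -/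
def S_LIM : Prop :=
  ∀ (d n : ℕ) (X : Fin (d + 1) → Fin n → E d) (P : (Fin (d + 1) → Finset (Fin n)) → Prop),
    (∀ ε : ℝ, 0 < ε → ∃ (X'' : Fin (d + 1) → Fin n → E d) (p : E d)
      (Z : Fin (d + 1) → Finset (Fin n)), (∀ i j, dist (X'' i j) (X i j) < ε) ∧ P Z ∧
      ∀ f : Tup d n, (∀ i, f i ∈ Z i) → p ∈ hullX X'' univ f) →
    ∃ (p : E d) (Z : Fin (d + 1) → Finset (Fin n)), P Z ∧
      ∀ f : Tup d n, (∀ i, f i ∈ Z i) → p ∈ hullX X univ f

/-- FIN (hypotheses PGP, LIM). Pach's theorem.

Proof. Let `c, n0` be from PGP. Take the constant `c' = min c (1 / (n0 + 1))`. Let the sets `C i`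
have `n ≥ 1` elements each. If `n < n0` choose one point `x i` in every `C i`, `D i = {x i}`,
`p = x 0`: the only transversal is `x`, and `c' n ≤ 1`. If `n ≥ n0` let `X i : Fin n → C i` be a
bijection (`Finset.equivFin` / `Finset.orderEmbOfFin` is not available, use
`(C i).equivFinOfCardEq`), take `p, Z` from LIM with `P Z := ∀ i, c n ≤ |Z i|` and PGP, and
`D i` = the image of `Z i` under `X i`. A transversal `x i ∈ D i` is `x i = X i (f i)` with
`f i ∈ Z i`. -/
def S_FIN : Prop :=
  ∀ d : ℕ, 1 ≤ d → ∃ c : ℝ, 0 < c ∧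
    ∀ (n : ℕ) (C : Fin (d + 1) → Finset (E d)), 1 ≤ n → (∀ i, (C i).card = n) →
    ∃ (p : E d) (D : Fin (d + 1) → Finset (E d)),
      (∀ i, D i ⊆ C i ∧ c * (n : ℝ) ≤ ((D i).card : ℝ)) ∧
      ∀ x : Fin (d + 1) → E d, (∀ i, x i ∈ D i) → p ∈ convexHull ℝ (Set.range x)

end Pool.Agent.Run7.h677.PS
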